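import Pool.Agent.H32.Finger1

namespace Pool.Agent.Results.MP_be7f3b_co.Ellipsoids

open Pool.Agent.H32.Finger

theorem result : ∀ (E : Type) [NormedAddCommGroup E] [InnerProductSpace ℝ E] (n : ℕ)
    (r b : Fin n → E), 1 ≤ n →
    (∀ σ : Equiv.Perm (Fin n), ∑ i, ‖r i - b (σ i)‖ ≤ ∑ i, ‖r i - b i‖) →
    ∃ o : E, ∀ i, ‖r i - o‖ + ‖b i - o‖ ≤ √2 * ‖r i - b i‖ := by
  intro E _ _ n r b hn h
  haveI : NeZero n := ⟨by omega⟩
  obtain ⟨t, ht⟩ := potentials (fun i j => ‖r i - b j‖ - ‖r i - b i‖) (fun i => sub_self _)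
    (fun σ => by rw [Finset.sum_sub_distrib]; linarith [h σ])
  let W := Submodule.span ℝ (Set.range r ∪ Set.range b)
  haveI : FiniteDimensional ℝ W :=
    FiniteDimensional.span_of_finite ℝ ((Set.finite_range r).union (Set.finite_range b))
  obtain ⟨o, ho⟩ := balls (E := W) (fun i => ⟨r i, Submodule.subset_span (Or.inl ⟨i, rfl⟩)⟩)
    (fun i => ⟨b i, Submodule.subset_span (Or.inr ⟨i, rfl⟩)⟩)
    (fun i => √2 * (‖r i - b i‖ - t i)) (fun j => √2 * t j) (fun i j => by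
      rw [← mul_add]
      refine mul_le_mul_of_nonneg_left ?_ (Real.sqrt_nonneg 2)
      have := ht i j
      change ‖r i - b j‖ ≤ _
      linarith)
  refine ⟨o, fun i => ?_⟩
  have := ho i i
  change ‖r i - o‖ + ‖b i - o‖ ≤ _ at this
  linarith

end Pool.Agent.Results.MP_be7f3b_co.Ellipsoids
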